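import Pool.Agent.helper18.DH.SpecM
import Pool.Agent.helper13.D2.SZC

/-!
# d2:MCLC: closeness of compositions
-/

set_option autoImplicit false

open Filter Topology MeasureTheory
open scoped commutatorElement

namespace Pool.Agent.helper90.DH

open Pool.Agent.helper64.D2

theorem CLC_lip0 (f : DD) (a : ℝ) (h : Sz f a) (u v : ℝ) : |ev f u - ev f v| ≤ (1 + a) * |u - v| := by
  have h2 := Convex.norm_image_sub_le_of_norm_deriv_le (𝕜 := ℝ) (f := ev f) (C := 1 + a)
    (s := Set.univ) (fun y _ => (SZC_d1 f) y) (fun y _ => by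
      rw [Real.norm_eq_abs]
      have h3 := SZC_der f a h y
      have h4 := abs_le.1 h3
      rw [abs_le]
      constructor <;> linarith [h4.1, h4.2, SZC_nonneg f a h]) convex_univ (Set.mem_univ v) (Set.mem_univ u)
  simpa only [Real.norm_eq_abs] using h2

theorem CLC_lip1 (f : DD) (a : ℝ) (h : Sz f a) (u v : ℝ) : |deriv (ev f) u - deriv (ev f) v| ≤ a * |u - v| := by
  have h2 := Convex.norm_image_sub_le_of_norm_deriv_le (𝕜 := ℝ) (f := deriv (ev f)) (C := a)
    (s := Set.univ) (fun y _ => (SZC_d2 f) y) (fun y _ => by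
      rw [Real.norm_eq_abs]
      exact h y) convex_univ (Set.mem_univ v) (Set.mem_univ u)
  simpa only [Real.norm_eq_abs] using h2

theorem CLC_mul (x y p q : ℝ) (hx : |x| ≤ p) (hy : |y| ≤ q) : |x * y| ≤ p * q := by
  rw [abs_mul]
  exact mul_le_mul hx hy (abs_nonneg _) ((abs_nonneg _).trans hx)

theorem CLC (hNCA : NCA_stmt) : CLC_stmt := by
  intro f f' g g' a M δ s0 s1 s2 t0 t1 t2 ha hM hδ hf hg hg' hL hd hcf hcg x
  obtain ⟨-, hN1, hN2, -⟩ := hNCA
  have ha0 : 0 ≤ a := SZC_nonneg f a hf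
  obtain ⟨c0, c1, c2⟩ := hcf (ev g' x)
  obtain ⟨e0, e1, e2⟩ := hcg x
  have ht0 : 0 ≤ t0 := (abs_nonneg _).trans e0
  have ht1 : 0 ≤ t1 := (abs_nonneg _).trans e1
  have ht2 : 0 ≤ t2 := (abs_nonneg _).trans e2
  have hs1 : 0 ≤ s1 := (abs_nonneg _).trans c1
  have hs2 : 0 ≤ s2 := (abs_nonneg _).trans c2
  have l0 : |ev f (ev g' x) - ev f (ev g x)| ≤ (1 + a) * t0 :=
    (CLC_lip0 f a hf _ _).trans (mul_le_mul_of_nonneg_left e0 (by linarith))
  have l1 : |deriv (ev f) (ev g' x) - deriv (ev f) (ev g x)| ≤ a * t0 :=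
    (CLC_lip1 f a hf _ _).trans (mul_le_mul_of_nonneg_left e0 ha0)
  have l2 : |d2 (ev f) (ev g' x) - d2 (ev f) (ev g x)| ≤ M * t0 :=
    (hL _ _).trans (mul_le_mul_of_nonneg_left e0 hM)
  have dg' : |deriv (ev g') x| ≤ 1 + δ := by
    have := abs_le.1 (hd x)
    rw [abs_le]; constructor <;> linarith [this.1, this.2]
  have dga' : |deriv (ev g') x| ≤ 1 + a := by
    have := abs_le.1 (SZC_der g' a hg' x)
    rw [abs_le]; constructor <;> linarith [this.1, this.2]
  have dga : |deriv (ev g) x| ≤ 1 + a := by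
    have := abs_le.1 (SZC_der g a hg x)
    rw [abs_le]; constructor <;> linarith [this.1, this.2]
  have dfa : |deriv (ev f) (ev g x)| ≤ 1 + a := by
    have := abs_le.1 (SZC_der f a hf (ev g x))
    rw [abs_le]; constructor <;> linarith [this.1, this.2]
  refine ⟨?_, ?_, ?_⟩
  · rw [ev_mul, ev_mul]
    have h1 : ev f' (ev g' x) - ev f (ev g x) = (ev f' (ev g' x) - ev f (ev g' x)) + (ev f (ev g' x) - ev f (ev g x)) := by ring
    rw [h1]
    refine (abs_add_le _ _).trans ?_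
    have h2 : a * t0 ≤ t0 := by nlinarith
    nlinarith
  · rw [hN1, hN1]
    have h1 : deriv (ev f') (ev g' x) * deriv (ev g') x - deriv (ev f) (ev g x) * deriv (ev g) x =
        (deriv (ev f') (ev g' x) - deriv (ev f) (ev g' x)) * deriv (ev g') x +
        (deriv (ev f) (ev g' x) - deriv (ev f) (ev g x)) * deriv (ev g') x +
        deriv (ev f) (ev g x) * (deriv (ev g') x - deriv (ev g) x) := by ring
    rw [h1]
    have b1 := CLC_mul _ _ _ _ c1 dg'
    have b2 := CLC_mul _ _ _ _ l1 dga'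
    have b3 := CLC_mul _ _ _ _ dfa e1
    refine (abs_add_le _ _).trans ?_
    have b4 := abs_add_le ((deriv (ev f') (ev g' x) - deriv (ev f) (ev g' x)) * deriv (ev g') x)
      ((deriv (ev f) (ev g' x) - deriv (ev f) (ev g x)) * deriv (ev g') x)
    have h2 : a * t0 * (1 + a) ≤ t0 := by
      have : a * (1 + a) ≤ 1 := by nlinarith
      nlinarith
    have h3 : (1 + a) * t1 ≤ 2 * t1 := by nlinarith
    linarith
  · rw [hN2, hN2]
    have h1 : d2 (ev f') (ev g' x) * deriv (ev g') x ^ 2 + deriv (ev f') (ev g' x) * d2 (ev g') x -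
        (d2 (ev f) (ev g x) * deriv (ev g) x ^ 2 + deriv (ev f) (ev g x) * d2 (ev g) x) =
        (d2 (ev f') (ev g' x) - d2 (ev f) (ev g' x)) * (deriv (ev g') x * deriv (ev g') x) +
        (d2 (ev f) (ev g' x) - d2 (ev f) (ev g x)) * (deriv (ev g') x * deriv (ev g') x) +
        d2 (ev f) (ev g x) * ((deriv (ev g') x - deriv (ev g) x) * (deriv (ev g') x + deriv (ev g) x)) +
        (deriv (ev f') (ev g' x) - deriv (ev f) (ev g' x)) * d2 (ev g') x +
        (deriv (ev f) (ev g' x) - deriv (ev f) (ev g x)) * d2 (ev g') x +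
        deriv (ev f) (ev g x) * (d2 (ev g') x - d2 (ev g) x) := by ring
    rw [h1]
    have hsum : |deriv (ev g') x + deriv (ev g) x| ≤ 2 + 2 * a := by
      refine (abs_add_le _ _).trans ?_
      linarith
    have b1 := CLC_mul _ _ _ _ c2 (CLC_mul _ _ _ _ dg' dg')
    have b2 := CLC_mul _ _ _ _ l2 (CLC_mul _ _ _ _ dga' dga')
    have b3 := CLC_mul _ _ _ _ (hf (ev g x)) (CLC_mul _ _ _ _ e1 hsum)
    have b4 := CLC_mul _ _ _ _ c1 (hg' x)
    have b5 := CLC_mul _ _ _ _ l1 (hg' x)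
    have b6 := CLC_mul _ _ _ _ dfa e2
    set x1 := (d2 (ev f') (ev g' x) - d2 (ev f) (ev g' x)) * (deriv (ev g') x * deriv (ev g') x)
    set x2 := (d2 (ev f) (ev g' x) - d2 (ev f) (ev g x)) * (deriv (ev g') x * deriv (ev g') x)
    set x3 := d2 (ev f) (ev g x) * ((deriv (ev g') x - deriv (ev g) x) * (deriv (ev g') x + deriv (ev g) x))
    set x4 := (deriv (ev f') (ev g' x) - deriv (ev f) (ev g' x)) * d2 (ev g') x
    set x5 := (deriv (ev f) (ev g' x) - deriv (ev f) (ev g x)) * d2 (ev g') x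
    set x6 := deriv (ev f) (ev g x) * (d2 (ev g') x - d2 (ev g) x)
    have hab : |x1 + x2 + x3 + x4 + x5 + x6| ≤ |x1| + |x2| + |x3| + |x4| + |x5| + |x6| := by
      have i1 := abs_add_le (x1 + x2 + x3 + x4 + x5) x6
      have i2 := abs_add_le (x1 + x2 + x3 + x4) x5
      have i3 := abs_add_le (x1 + x2 + x3) x4
      have i4 := abs_add_le (x1 + x2) x3
      have i5 := abs_add_le x1 x2
      linarith
    refine hab.trans ?_
    have k2 : M * t0 * ((1 + a) * (1 + a)) ≤ 2 * M * t0 := by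
      have h3 : (1 + a) * (1 + a) ≤ 2 := by nlinarith
      have h4 : 0 ≤ M * t0 := by positivity
      nlinarith
    have k3 : a * (t1 * (2 + 2 * a)) ≤ t1 := by
      have h3 : a * (2 + 2 * a) ≤ 1 := by nlinarith
      nlinarith
    have k4 : s1 * a ≤ s1 := by nlinarith
    have k5 : a * t0 * a ≤ t0 := by
      have h3 : a * a ≤ 1 := by nlinarith
      nlinarith
    have k6 : (1 + a) * t2 ≤ 2 * t2 := by nlinarith
    have k1 : s2 * ((1 + δ) * (1 + δ)) = (1 + δ) ^ 2 * s2 := by ring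
    linarith

end Pool.Agent.helper90.DH
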